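import Pool.Agent.VCC.All

set_option autoImplicit false

namespace Pool.Agent.Results.MP_490634_ag.ComponentInGap

open Pool.Agent.HilbPts

/-- For `n = 6` or `n ≥ 8` and all `r` with `(n-1)(n-2)/6 + 2 < r` and `3 r ≤ n ^ 2 - 6`
(if `3 ∣ n`), `3 r ≤ n ^ 2 - 7` (if `n ≡ 2 mod 3`), `3 r ≤ n ^ 2 - 10` (if `n ≡ 1 mod 3`) the closure
of the locus `VC_{n,d}`, `d = 1 + n + r`, of very compressed algebras is an irreducible component of
`Hilb_d(A^n)`. -/
theorem result (n r : ℕ) (hn : n = 6 ∨ 8 ≤ n) (h1 : (n - 1) * (n - 2) + 12 < 6 * r)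
    (h2 : 3 * r + (if n % 3 = 0 then 6 else if n % 3 = 2 then 7 else 10) ≤ n ^ 2)
    (k : Type*) [Field k] [IsAlgClosed k] [CharZero k] :
    closure (VC n (1 + n + r) k) ∈ irreducibleComponents (Hilb n (1 + n + r) k) :=
  Pool.Agent.VCC.main k n r hn h1 h2

end Pool.Agent.Results.MP_490634_ag.ComponentInGap
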