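import Pool.Agent.HilbPts.PartOne

set_option autoImplicit false

namespace Pool.Agent.Results.MP_490634_ag.NotComponent

open Pool.Agent.HilbPts

/-- For `n ≥ 4` and `3 r ≥ n ^ 2` (equivalently `r > (n ^ 2 - 1) / 3`) the closure of the locus
`VC_{n,d}`, `d = 1 + n + r`, of very compressed algebras is not an irreducible component of
`Hilb_d(A^n)`, reduced or not. -/
theorem result (n r : ℕ) (hn : 4 ≤ n) (hr : n ^ 2 ≤ 3 * r) (k : Type*) [Field k]
    [IsAlgClosed k] [CharZero k] :
    closure (VC n (1 + n + r) k) ∉ irreducibleComponents (Hilb n (1 + n + r) k) := by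
  refine closure_VC_not_component n r k ?_ hr
  nlinarith

end Pool.Agent.Results.MP_490634_ag.NotComponent
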