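import Pool.Agent.HilbPts.PartTwo

set_option autoImplicit false

namespace Pool.Agent.Results.MP_490634_ag.SmoothableIff

open Pool.Agent.HilbPts

/-- For `n ≥ 4`, `(n - 1) (n - 2) / 6 + 2 < r ≤ n (n + 1) / 2` and `d = 1 + n + r` the locus
`VC_{n,d}` of very compressed algebras is contained in the smoothable component of
`Hilb_d(A^n)` if and only if `r (n (n - 1) / 2 - r) < n ^ 2`. -/
theorem result (n r : ℕ) (hn : 4 ≤ n) (hr : (n - 1) * (n - 2) + 12 < 6 * r)
    (hr' : r ≤ (n + 1).choose 2) (k : Type*) [Field k] [IsAlgClosed k] [CharZero k] :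
    VC n (1 + n + r) k ⊆ Smoothable n (1 + n + r) k ↔ r * n.choose 2 < n ^ 2 + r ^ 2 :=
  VC_subset_smoothable_iff n r hn hr hr' k

end Pool.Agent.Results.MP_490634_ag.SmoothableIff
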