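import Pool.Agent.VCU.All

set_option autoImplicit false

namespace Pool.Agent.Results.MP_490634_ag.TopValues

open Pool.Agent.HilbPts

/-- For `n ≥ 8`, `n ≠ 9`, and the values `r < (n ^ 2 - 1) / 3` (`r ≤ n ^ 2 / 3 - 1` if `3 ∣ n`) above
the range of `ComponentInGap`, that is `r = n ^ 2 / 3 - 1` if `3 ∣ n`, `r = (n ^ 2 - 4) / 3` if
`n ≡ 2 mod 3`, `r = (n ^ 2 - 4) / 3, (n ^ 2 - 7) / 3` if `n ≡ 1 mod 3`, the closure of the locus
`VC_{n,d}`, `d = 1 + n + r`, of very compressed algebras is an irreducible component of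
`Hilb_d(A^n)`. -/
theorem result (n r : ℕ) (hn : 8 ≤ n) (h9 : n ≠ 9)
    (h1 : n ^ 2 < 3 * r + (if n % 3 = 0 then 6 else if n % 3 = 2 then 7 else 10))
    (h2 : 3 * r + 2 ≤ n ^ 2) (k : Type*) [Field k] [IsAlgClosed k] [CharZero k] :
    closure (VC n (1 + n + r) k) ∈ irreducibleComponents (Hilb n (1 + n + r) k) := by
  obtain ⟨m, h⟩ : ∃ m, n = 3 * m ∨ n = 3 * m + 1 ∨ n = 3 * m + 2 := ⟨n / 3, by omega⟩
  rcases h with rfl | rfl | rfl
  · have e : (3 * m) ^ 2 = 9 * m ^ 2 := by ring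
    have e' : 3 * m % 3 = 0 := by omega
    rw [e', if_pos rfl] at h1
    exact Pool.Agent.VCT.main _ r (by omega) (by omega) (by omega) k
  · have e : (3 * m + 1) ^ 2 = 9 * m ^ 2 + 6 * m + 1 := by ring
    have e' : (3 * m + 1) % 3 = 1 := by omega
    rw [e', if_neg (by norm_num), if_neg (by norm_num)] at h1
    exact Pool.Agent.VCU.main _ r (.inr ⟨by omega, by omega, by omega⟩) k
  · have e : (3 * m + 2) ^ 2 = 9 * m ^ 2 + 12 * m + 4 := by ring
    have e' : (3 * m + 2) % 3 = 2 := by omega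
    rw [e', if_neg (by norm_num), if_pos rfl] at h1
    exact Pool.Agent.VCU.main _ r (.inl ⟨by omega, by omega, by omega⟩) k

end Pool.Agent.Results.MP_490634_ag.TopValues
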